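import Pool.Agent.H443R3.BT.Fin
import Pool.Agent.Results.MP_fe58d8_pr.NaturalCurve
import Pool.Agent.Results.MP_fe58d8_pr.UniformDimension

/-!
# The boundary times of the exploration path in its natural parametrisation

Critical bond percolation on `δ ℤ²` in a rectangle `D = (-A, B) × (0, H)`, with the counterclockwise
boundary arc from `a = t + i H` to `b = 0` wired and the other one dual-wired. The exploration path
is parametrised by its number of steps: `Rect.curve` is the piecewise linear curve on `[0, 1]` run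
at constant speed, and `Rect.time` is the number of steps times `δ ^ (7/4)`; `Rect.law` is the law
of (curve, time). Weak limits exist along a subsequence of every sequence of meshes, and for every
weak limit, almost surely, the set of times at which the curve is on the boundary of `D` has
Hausdorff dimension exactly `8/21`, and so has the set of times at which it is on the boundary
segment `[0, x)`, for every `x > 0`.

Definitions: `Pool.Agent.H984R4.NP.Model` (`Rect`, `pos`, `clamp`, `pl`, `X`, `Rect.D`, `Rect.dm`,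
`Rect.curve`, `Rect.time`, `Rect.law`), `Pool.Agent.H984R4.NP.Defs` (`Dm`, `Dm.edges`, `Dm.wir`,
`Dm.cfg`, `Dm.walk`, `Dm.len`) and `Pool.Agent.H984R3.Per.Defs` (states, `ae`, `mv`, `rt`, `nxt`,
`orb`).
-/

namespace Pool.Agent.Results.MP_fe58d8_pr.BoundaryTimes

open H984N MeasureTheory Filter Topology

theorem closure_le (R : Rect) {z : ℂ} (hz : z ∈ closure R.D) : z.re ≤ R.B := by
  have hc : IsClosed {z : ℂ | z.re ≤ R.B} := isClosed_le Complex.continuous_re continuous_const
  exact closure_minimal (fun w hw => le_of_lt hw.2.1) hc hz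

theorem seg_image (R : Rect) (f : C(unitInterval, ℂ)) (hf : ∀ s, f s ∈ closure R.D) (x : ℝ) :
    f '' {s : unitInterval | (f s).im = 0 ∧ 0 ≤ (f s).re ∧ (f s).re < x} =
      (fun y : ℝ => (y : ℂ)) '' {y : ℝ | 0 ≤ y ∧ y < x ∧ y ≤ R.B ∧ (y : ℂ) ∈ Set.range f} := by
  ext z
  constructor
  · rintro ⟨s, ⟨h1, h2, h3⟩, rfl⟩
    have e : (((f s).re : ℝ) : ℂ) = f s := by
      apply Complex.ext
      · simp
      · simp [h1]
    refine ⟨(f s).re, ⟨h2, h3, closure_le R (hf s), ?_⟩, e⟩
    rw [e]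
    exact ⟨s, rfl⟩
  · rintro ⟨y, ⟨h1, h2, -, ⟨s, hs⟩⟩, rfl⟩
    refine ⟨s, ⟨?_, ?_, ?_⟩, hs⟩
    · rw [hs]; exact Complex.ofReal_im y
    · rw [hs, Complex.ofReal_re]; exact h1
    · rw [hs, Complex.ofReal_re]; exact h2

theorem result (R : Rect) :
    (∀ δ : ℕ → ℝ, (∀ i, 0 < δ i) → Tendsto δ atTop (𝓝 0) →
      ∃ φ : ℕ → ℕ, StrictMono φ ∧ ∃ μ : ProbabilityMeasure X,
        Tendsto (fun i => R.law (δ (φ i))) atTop (𝓝 μ)) ∧
    (∀ δ : ℕ → ℝ, (∀ i, 0 < δ i) → Tendsto δ atTop (𝓝 0) → ∀ μ : ProbabilityMeasure X,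
      Tendsto (fun i => R.law (δ i)) atTop (𝓝 μ) →
      ∀ᵐ p ∂(μ : Measure X),
        dimH {s : unitInterval | p.1 s ∈ frontier R.D} = 8 / 21 ∧
        ∀ x : ℝ, 0 < x → dimH {s : unitInterval |
          (p.1 s).im = 0 ∧ 0 ≤ (p.1 s).re ∧ (p.1 s).re < x} = 8 / 21) := by
  obtain ⟨h1, h2⟩ := UniformDimension.result R
  refine ⟨h1, fun δ hδ hlim μ hμ => ?_⟩
  filter_upwards [h2 δ hδ hlim μ hμ, (NaturalCurve.result R).2.2.2 δ hδ hlim μ hμ,
    H443B.dims R hδ hlim hμ] with p hp hq hd
  obtain ⟨-, -, -, hcl, -⟩ := hq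
  obtain ⟨d1, d2⟩ := hd
  constructor
  · apply H443B.solve
    rw [← hp, ← d1]
    congr 1
    exact Set.image_preimage_eq_range_inter
  · intro x hx
    apply H443B.solve
    rw [← hp, ← d2 x hx, seg_image R p.1 hcl x]
    exact Complex.isometry_ofReal.dimH_image _

end Pool.Agent.Results.MP_fe58d8_pr.BoundaryTimes
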