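import Pool.Agent.H443R3.BT.Fix
import Pool.Agent.Results.MP_fe58d8_pr.UniformDimension

/-!
# Times at which the exploration path is in a fixed set

Critical bond percolation on `δ ℤ²` in a rectangle `D = (-A, B) × (0, H)`, with the counterclockwise
boundary arc from `a = t + i H` to `b = 0` wired and the other one dual-wired. The exploration path
is parametrised by its number of steps: `Rect.curve` is the piecewise linear curve on `[0, 1]` run
at constant speed, and `Rect.time` is the number of steps times `δ ^ (7/4)`; `Rect.law` is the law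
of (curve, time). Weak limits exist along a subsequence of every sequence of meshes. For every weak
limit and every fixed subset `S` of `D` (no measurability is assumed), almost surely, the set of
times at which the curve is in `S` has Hausdorff dimension at most `(4/7) (dim S - 1/4)`, and if
`dim S < 1/4` the curve does not meet `S`. (Differences in `[0, ∞]` are truncated at `0`.)

Definitions: `Pool.Agent.H984R4.NP.Model` (`Rect`, `pos`, `clamp`, `pl`, `X`, `Rect.D`, `Rect.dm`,
`Rect.curve`, `Rect.time`, `Rect.law`), `Pool.Agent.H984R4.NP.Defs` (`Dm`, `Dm.edges`, `Dm.wir`,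
`Dm.cfg`, `Dm.walk`, `Dm.len`) and `Pool.Agent.H984R3.Per.Defs` (states, `ae`, `mv`, `rt`, `nxt`,
`orb`).
-/

namespace Pool.Agent.Results.MP_fe58d8_pr.FixedSets

open H984N MeasureTheory Filter Topology
open scoped ENNReal

theorem result (R : Rect) :
    (∀ δ : ℕ → ℝ, (∀ i, 0 < δ i) → Tendsto δ atTop (𝓝 0) →
      ∃ φ : ℕ → ℕ, StrictMono φ ∧ ∃ μ : ProbabilityMeasure X,
        Tendsto (fun i => R.law (δ (φ i))) atTop (𝓝 μ)) ∧
    (∀ δ : ℕ → ℝ, (∀ i, 0 < δ i) → Tendsto δ atTop (𝓝 0) → ∀ μ : ProbabilityMeasure X,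
      Tendsto (fun i => R.law (δ i)) atTop (𝓝 μ) →
      ∀ S : Set ℂ, S ⊆ R.D → ∀ᵐ p ∂(μ : Measure X),
        dimH {s : unitInterval | p.1 s ∈ S} ≤ 4 / 7 * (dimH S - 1 / 4) ∧
        (dimH S < 1 / 4 → ∀ s : unitInterval, p.1 s ∉ S)) := by
  obtain ⟨h1, h2⟩ := UniformDimension.result R
  refine ⟨h1, fun δ hδ hlim μ hμ S hS => ?_⟩
  have h3 := H443B.fixed_trace (H443B.toE R) hδ hlim (H443B.limit_trace R hδ hlim hμ)
    (H443B.isOpen_D R) hS
  rw [ProbabilityMeasure.toMeasure_map] at h3
  filter_upwards [h2 δ hδ hlim μ hμ,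
    ae_of_ae_map H443B.rgX_cont.measurable.aemeasurable h3] with p hp hq
  obtain ⟨q1, q2⟩ := hq
  constructor
  · have e : p.1 '' {s : unitInterval | p.1 s ∈ S} = Set.range p.1 ∩ S :=
      Set.image_preimage_eq_range_inter
    have h4 := hp {s : unitInterval | p.1 s ∈ S}
    rw [e] at h4
    have h5 : 7 / 4 * dimH {s : unitInterval | p.1 s ∈ S} ≤ dimH S - 1 / 4 := by
      rw [← h4]
      exact q1
    have e2 : (4 / 7 : ℝ≥0∞) * (7 / 4) = 1 := by
      have a1 : (4 / 7 : ℝ≥0∞) = ENNReal.ofReal (4 / 7) := by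
        rw [ENNReal.ofReal_div_of_pos (by norm_num)]; norm_num
      have a2 : (7 / 4 : ℝ≥0∞) = ENNReal.ofReal (7 / 4) := by
        rw [ENNReal.ofReal_div_of_pos (by norm_num)]; norm_num
      rw [a1, a2, ← ENNReal.ofReal_mul (by norm_num)]
      norm_num
    calc dimH {s : unitInterval | p.1 s ∈ S}
        = 4 / 7 * (7 / 4 * dimH {s : unitInterval | p.1 s ∈ S}) := by
          rw [← mul_assoc, e2, one_mul]
      _ ≤ 4 / 7 * (dimH S - 1 / 4) := by gcongr
  · intro h s hs
    have h6 : (H443B.rgX p : Set ℂ) ∩ S = ∅ := q2 h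
    have h7 : p.1 s ∈ (H443B.rgX p : Set ℂ) ∩ S := ⟨⟨s, rfl⟩, hs⟩
    rw [h6] at h7
    exact h7

end Pool.Agent.Results.MP_fe58d8_pr.FixedSets
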