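import Pool.Agent.H450R4.NLMain

/-!
Critical bond percolation on the square lattice: strong law of large numbers, with a rate, for the
number of nested layers around the origin (the one-point nesting statistics of the full scaling
limit CLE₆).

`changes n ω` is the minimal number of colour changes of a path from the origin to the distance `n`,
i.e. the number of nested alternating (open / dual-open) layers around the origin.

Definitions (in `Pool.Agent.H974R2.Model`, `Pool.Agent.H974R2.Infinite`,
`Pool.Agent.H863R2.NL.Defs`): `sqLattice`, `bondLaw`, `hlf` (`= 1/2`), `openGraph`; `Pt`, `Corner`,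
`Free`, `Change`, `ReachIn`, `norm2`, `changes`.

The law on the cylinder and the comparison with the plane are in `Pool.Agent.H863R2` (starting
repository); the proofs of this file are in `Pool.Agent.H450R4` (helper450).
-/

namespace Pool.Agent.Results.MP_fe58d8_pr.NestingStrongLaw

open MeasureTheory H974 Pool.Agent.H863R2.NL Filter
open scoped Real Topology

theorem result (K : ℝ) (hK0 : 0 < K) (hK : 4 / (3 * √3 * π) - 1 / π ^ 2 < K ^ 2) :
    ∀ᵐ ω ∂(bondLaw hlf), ∀ᶠ n : ℕ in atTop,
      |(changes n ω : ℝ) - Real.log n / (2 * √3 * π)| ≤
        K * √(Real.log n * Real.log (Real.log n)) := by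
  have e : ∀ n : ℕ, cN * Real.log n = Real.log n / (2 * √3 * π) := by
    intro n
    unfold cN
    ring
  have h2 : 2 * vN < K ^ 2 := by
    have e2 : 2 * vN = 4 / (3 * √3 * π) - 1 / π ^ 2 := by
      unfold vN
      ring
    rw [e2]
    exact hK
  filter_upwards [Pool.Agent.H450R4.NL.rate K hK0 h2] with ω hω
  filter_upwards [hω] with n hn
  rw [← e n]
  exact hn

end Pool.Agent.Results.MP_fe58d8_pr.NestingStrongLaw
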